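import Mathlib
import Pool.Agent.H.MP_fb02e9_lc.Core
namespace Pool.Agent.Results.MP_fb02e9_lc.Equal

def Independent (𝒜 : Set (ℕ → Bool)) : Prop :=
  (∀ a ∈ 𝒜, {n | a n = true}.Infinite) ∧
    ∀ F G : Finset (ℕ → Bool), ↑F ⊆ 𝒜 → ↑G ⊆ 𝒜 → Disjoint F G → (F ≠ ∅ ∨ G ≠ ∅) →
      {n | (∀ a ∈ F, a n = true) ∧ ∀ b ∈ G, b n = false}.Infinite

theorem result : ∃ κ : Cardinal,
    IsLeast {c | ∃ X : Set (ℕ → Bool), ¬ IsMeagre X ∧ Cardinal.mk X = c} κ ∧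
    IsLeast {c | ∃ 𝒜 : Set (ℕ → Bool), Independent 𝒜 ∧ ¬ IsMeagre 𝒜 ∧ Cardinal.mk 𝒜 = c} κ := by
  have hne : ({c | ∃ X : Set (ℕ → Bool), ¬ IsMeagre X ∧ Cardinal.mk X = c} : Set Cardinal).Nonempty :=
    ⟨_, Set.univ, not_isMeagre_of_isOpen isOpen_univ Set.univ_nonempty, rfl⟩
  obtain ⟨X, hX, h⟩ := csInf_mem hne
  refine ⟨_, ⟨csInf_mem hne, fun c hc => csInf_le' hc⟩, ?_, fun c ⟨𝒜, _, h2, h3⟩ => csInf_le' ⟨𝒜, h2, h3⟩⟩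
  obtain ⟨𝒜, h1, h2, h3⟩ := Pool.Agent.H.MP_fb02e9_lc.main hX
  refine ⟨𝒜, ⟨fun a ha => ?_, fun F G hF hG hd _ => h3 F G hF hG hd⟩, h2,
    le_antisymm (h ▸ h1) (csInf_le' ⟨𝒜, h2, rfl⟩)⟩
  simpa using h3 {a} ∅ (by simpa using ha) (by simp) (by simp)

end Pool.Agent.Results.MP_fb02e9_lc.Equal
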